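import Pool.Agent.H42.GN.Hf
import Pool.Agent.H42.GN.Hh
import Pool.Agent.H30.OR.Th
import Pool.Agent.H88.GX.Gb

/-!
Project MP_78d38b_GN (necessity, step (3)): the number of the conditions at the completely split primes is even.
-/

set_option autoImplicit false
set_option linter.unusedSectionVars false
open scoped Classical

open WithZero NumberField IsDedekindDomain H38RT
open H38T1 (SC sc scu rep eo la si OddP)
open H76PP (Cub LC ev scm dn)
open H88GX

namespace H88GN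

variable {K F L : Type} [Field K] [NumberField K] [Field F] [NumberField F] [Field L]
  [NumberField L] [Algebra K F] [Algebra F L] {a b : K} {θ : L} {S : Ext K F L a b θ} {D : K}
  {Sg : Finset (HeightOneSpectrum (𝓞 K))}

/-- The Legendre class of the discriminant over `F` and over `K`. -/
theorem la_dis (ok : S.Ok D Sg) {W : HeightOneSpectrum (𝓞 F)} (hW : dn K W ∉ Sg)
    (hfr : ∀ g : F ≃ₐ[K] F, H88OD.gq g • W = W → g = 1) :
    la W (sc (-(4 * (algebraMap K F a) ^ 3 + 27 * (algebraMap K F b) ^ 2))) =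
      la (dn K W) (sc (-(4 * a ^ 3 + 27 * b ^ 2))) := by
  have hgal : IsGalois K F := S.gal
  have hΔ : (-(4 * a ^ 3 + 27 * b ^ 2) : K) ≠ 0 := neg_ne_zero.2 S.dne
  have hv := fun x => H42GN.unr_val hgal hfr x
  have hres := fun y hy => H42GN.unr_res hgal hfr y hy
  have e : (-(4 * (algebraMap K F a) ^ 3 + 27 * (algebraMap K F b) ^ 2) : F) =
      algebraMap K F (-(4 * a ^ 3 + 27 * b ^ 2)) := by
    rw [map_neg, map_add, map_mul, map_mul, map_pow, map_pow, map_ofNat, map_ofNat]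
  rw [e]
  refine H42GN.la_down ?_ hv hres hΔ ?_
  · unfold OddP
    have h1 := hv 2
    rw [map_ofNat] at h1
    rw [h1]
    exact ok.two _ hW
  · rw [H42GN.eo_down hv hΔ, H38T1.eo_sc hΔ]
    unfold ord
    rw [Valuation.map_neg, ok.dis _ hW, log_one, neg_zero, Int.cast_zero]

/-- The number of conditions is even. -/
theorem even_m (ok : S.Ok D Sg) {δ : K} (hδ : δ ≠ 0)
    (hsq : ∀ u ∈ Sg, IsSquare (algebraMap K (u.adicCompletion K) δ))
    (hpos : ∀ s : K →+* ℝ, 0 < s δ) {T : Finset (HeightOneSpectrum (𝓞 K))}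
    (hT : ∀ v, v ∈ T ↔ v ∉ Sg ∧ Odd (ord (v.valuation K) δ))
    {W : {v // v ∈ T} → HeightOneSpectrum (𝓞 F)} (hW : ∀ v, dn K (W v) = v.1)
    (hfr : ∀ v (g : F ≃ₐ[K] F), H88OD.gq g • W v = W v → g = 1) {m : {v // v ∈ T} → ℕ}
    (hm : ∀ v, (m v : ZMod 2) =
      la (W v) (sc (-(4 * (algebraMap K F a) ^ 3 + 27 * (algebraMap K F b) ^ 2)))) :
    Even (∑ v, m v) := by
  have hΔ : (-(4 * a ^ 3 + 27 * b ^ 2) : K) ≠ 0 := neg_ne_zero.2 S.dne
  rw [← ZMod.natCast_eq_zero_iff_even, Nat.cast_sum]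
  have h1 : ∀ v : {v // v ∈ T}, (m v : ZMod 2) = la v.1 (sc (-(4 * a ^ 3 + 27 * b ^ 2))) := by
    intro v
    rw [hm, la_dis ok (by rw [hW]; exact ((hT v.1).1 v.2).1) (hfr v), hW]
  rw [Finset.sum_congr rfl fun v _ => h1 v, Finset.sum_coe_sort T fun v =>
    la v (sc (-(4 * a ^ 3 + 27 * b ^ 2)))]
  exact H30OR.sum_la hΔ hδ (fun v hv => ok.two v hv)
    (fun v hv => by rw [Valuation.map_neg]; exact ok.dis v hv) hsq hpos hT

end H88GN
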