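import Pool.Agent.H88.GN.Kc
import Pool.Agent.H30.OD.Od3

/-!
Project MP_78d38b_GN: the fields between `K` and `N`.
-/

set_option autoImplicit false
set_option linter.unusedSectionVars false
open scoped Classical

open WithZero NumberField IsDedekindDomain H76PP H36CY H24PD H73P2 H30ZO H38RT
open H38T1 (SC sc)

namespace H88GN

section

variable {K F : Type} [Field K] [NumberField K] [Field F] [NumberField F] [Algebra K F]

/-- Squares in the cubic field over `F` of elements with square norm are squares in the cubic field over `K`. -/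
theorem ev_sq_down (hgal : IsGalois K F) {L0 L : Type}
    [Field L0] [NumberField L0] [Algebra K L0] [Field L] [NumberField L] [Algebra F L] {a b : K}
    {θ0 : L0} {θ : L} (h0 : Cub K L0 a b θ0) (h : Cub F L (algebraMap K F a) (algebraMap K F b) θ)
    {d : Fin 3 → K} (hd : ev θ0 d ≠ 0) (hN : IsSquare (Algebra.norm K (ev θ0 d)))
    (hsq : IsSquare (ev θ (fun j => algebraMap K F (d j)))) : IsSquare (ev θ0 d) := by
  have hfd : FiniteDimensional K F := Module.Finite.of_restrictScalars_finite ℚ K F
  have hfin0 : Module.Finite K L0 := Module.Finite.of_basis h0.basis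
  obtain ⟨y, hy⟩ := hsq
  obtain ⟨e, he⟩ : ∃ e : Fin 3 → F, ev θ e = y := ⟨fun j => h.co j y, (h.eq_co y).symm⟩
  rw [← he, Te_ev_mul h] at hy
  have hu := Na_inj h hy
  -- the norm of the root
  obtain ⟨t, ht⟩ := hN
  rw [Te_norm h0] at ht
  have hnf : Te_nf (algebraMap K F a) (algebraMap K F b) e *
      Te_nf (algebraMap K F a) (algebraMap K F b) e = algebraMap K F t * algebraMap K F t := by
    rw [← Te_nf_mul, ← hu, Te_nf_map, ht, map_mul]
  have ht0 : t ≠ 0 := by
    rintro rfl
    rw [mul_zero, ← Te_norm h0] at ht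
    exact Algebra.norm_ne_zero_iff.2 hd ht
  have hn0 : Te_nf (algebraMap K F a) (algebraMap K F b) e ≠ 0 := by
    intro h1
    rw [h1, mul_zero] at hnf
    exact mul_self_ne_zero.2 ((map_ne_zero (algebraMap K F)).2 ht0) hnf.symm
  have hfixn : ∀ g : F ≃ₐ[K] F, g (Te_nf (algebraMap K F a) (algebraMap K F b) e) =
      Te_nf (algebraMap K F a) (algebraMap K F b) e := by
    intro g
    rcases mul_self_eq_mul_self_iff.1 hnf with h1 | h1
    · rw [h1, g.commutes]
    · rw [h1, map_neg, g.commutes]
  have hfix : ∀ (g : F ≃ₐ[K] F) j, g (e j) = e j := by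
    intro g
    have h1 : Te_nf (algebraMap K F a) (algebraMap K F b) (fun j => g (e j)) =
        Te_nf (algebraMap K F a) (algebraMap K F b) e := by
      have h2 := Te_nf_map (g : F →+* F) (algebraMap K F a) (algebraMap K F b) e
      have h3 : (g : F →+* F) (algebraMap K F a) = algebraMap K F a := g.commutes a
      have h4 : (g : F →+* F) (algebraMap K F b) = algebraMap K F b := g.commutes b
      rw [h3, h4] at h2
      exact h2.trans (hfixn g)
    have h5 : ev θ (fun j => g (e j)) * ev θ (fun j => g (e j)) = ev θ e * ev θ e := by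
      rw [Te_ev_mul h, Te_ev_mul h, ← hu]
      congr 1
      funext j
      have h2 := Te_m3_map (g : F →+* F) (algebraMap K F a) (algebraMap K F b) e e j
      have h3 : (g : F →+* F) (algebraMap K F a) = algebraMap K F a := g.commutes a
      have h4 : (g : F →+* F) (algebraMap K F b) = algebraMap K F b := g.commutes b
      rw [h3, h4, ← hu] at h2
      exact h2.trans (g.commutes (d j))
    rcases mul_self_eq_mul_self_iff.1 h5 with h6 | h6
    · exact fun j => congrFun (Na_inj h h6) j
    · exfalso
      have h7 : -ev θ e = ev θ (fun j => -e j) := by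
        simp only [ev, map_neg]
        ring
      rw [h7] at h6
      have h8 := Na_inj h h6
      rw [h8] at h1
      have h9 : Te_nf (algebraMap K F a) (algebraMap K F b) (fun j => -e j) =
          -Te_nf (algebraMap K F a) (algebraMap K F b) e := by
        unfold Te_nf
        ring
      rw [h9] at h1
      have h10 : (2 : F) * Te_nf (algebraMap K F a) (algebraMap K F b) e = 0 := by
        linear_combination -h1
      exact hn0 ((mul_eq_zero.1 h10).resolve_left two_ne_zero)
  have hex : ∀ j, ∃ z : K, algebraMap K F z = e j := fun j =>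
    (IsGalois.mem_range_algebraMap_iff_fixed (F := K) (e j)).2 fun g => hfix g j
  choose z hz using hex
  refine ⟨ev θ0 z, ?_⟩
  rw [Te_ev_mul h0]
  congr 1
  funext j
  apply (algebraMap K F).injective
  rw [← Te_m3_map]
  have h1 : (fun j => algebraMap K F (z j)) = e := funext hz
  rw [h1]
  exact congrFun hu j

/-- **Descent of `SelTriv`** from `F` to `K`. -/
theorem selTriv_down (hgal : IsGalois K F) {L0 L : Type}
    [Field L0] [NumberField L0] [Algebra K L0] [Field L] [NumberField L] [Algebra F L] {a b : K}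
    {θ0 : L0} {θ : L} (h0 : Cub K L0 a b θ0) (h : Cub F L (algebraMap K F a) (algebraMap K F b) θ)
    (hsel : SelTriv F L (algebraMap K F a) (algebraMap K F b) θ) : SelTriv K L0 a b θ0 := by
  intro d hd hN hf hr
  have hnd : Te_nf a b d ≠ 0 := by
    rw [← Te_norm h0]
    have hfin0 : Module.Finite K L0 := Module.Finite.of_basis h0.basis
    exact Algebra.norm_ne_zero_iff.2 hd
  have hnF : Algebra.norm F (ev θ (fun j => algebraMap K F (d j))) =
      algebraMap K F (Algebra.norm K (ev θ0 d)) := by
    rw [Te_norm h, Te_norm h0, Te_nf_map]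
  have hdF : ev θ (fun j => algebraMap K F (d j)) ≠ 0 := by
    intro e
    rw [e] at hnF
    have hfin1 : Module.Finite F L := Module.Finite.of_basis h.basis
    rw [Algebra.norm_zero] at hnF
    exact hnd (by
      rw [← Te_norm h0]
      exact (map_eq_zero _).1 hnF.symm)
  refine ev_sq_down hgal h0 h hd hN (hsel _ hdF ?_ ?_ ?_)
  · rw [hnF]
    exact hN.map _
  · intro w
    have h1 := hf (dn K w)
    obtain ⟨x, y, z, hy, hxy, hz⟩ := h1
    obtain ⟨j, hj⟩ : ∃ j, j = (over_dn (K := K) w).map := ⟨_, rfl⟩
    have hja : ∀ x : K, j (algebraMap K ((dn K w).adicCompletion K) x) =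
        algebraMap F (w.adicCompletion F) (algebraMap K F x) := by
      intro x
      rw [hj]
      exact (over_dn (K := K) w).map_algebraMap x
    refine ⟨j x, j y, fun i => j (z i), (map_ne_zero j).2 hy, ?_, ?_⟩
    · rw [← hja, ← hja, ← map_pow, hxy, map_add, map_add, map_mul, map_pow]
    · have e1 : (fun i => j ((![x, -1, 0] : Fin 3 → _) i)) = ![j x, -1, 0] := by
        funext i
        fin_cases i <;> simp
      have e2 : (fun i => algebraMap F (w.adicCompletion F) (algebraMap K F (d i))) =
          fun i => j (algebraMap K ((dn K w).adicCompletion K) (d i)) := by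
        funext i
        rw [hja]
      rw [e2, ← e1, ← hja, ← hja]
      funext i
      rw [Te_m3_map, Te_m3_map, hz]
  · intro s
    have h1 := hr (s.comp (algebraMap K F))
    exact h1

end

section

variable {K N L : Type} [Field K] [NumberField K] [Field N] [NumberField N] [Field L]
  [NumberField L] [Algebra K N] [Algebra N L] {a b : K} {θ : L}

/-- The Selmer group over `N`. -/
theorem sel_of_V (S : H88GX.Ext K N L a b θ) {D : K} (h : ∀ c, S.V D c → c = 0) :
    SelTriv N L (algebraMap K N (D ^ 2 * a)) (algebraMap K N (D ^ 3 * b))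
      (algebraMap N L (algebraMap K N D) * θ) := by
  intro d hd hN hf hr
  have h1 : sc (ev (algebraMap N L (algebraMap K N D) * θ) d) = 0 := by
    refine h _ ⟨?_, fun v => ?_, fun s => ?_⟩
    · rw [H30ZO.mem_HH hd]
      exact hN
    · exact ⟨d, hd, rfl, hf v⟩
    · exact ⟨d, hd, rfl, hr s⟩
  exact (H38T1.sc_eq_zero hd).1 h1

/-- **From the Selmer group over `N` to the fields between `K` and `N`.** -/
theorem tv_between (S : H88GX.Ext K N L a b θ) {D : K} (hD : D ≠ 0) (h : ∀ c, S.V D c → c = 0)
    (M : Type) [Field M] [NumberField M] [Algebra K M] [Algebra M N] [IsScalarTower K M N] :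
    Tv M (algebraMap K M (D ^ 2 * a)) (algebraMap K M (D ^ 3 * b)) := by
  have hgal := S.gal
  have hfd : FiniteDimensional K N := Module.Finite.of_restrictScalars_finite ℚ K N
  have hgalM : IsGalois M N := IsGalois.tower_top_of_isGalois K M N
  have hir : ∀ t : M, t ^ 3 + algebraMap K M (D ^ 2 * a) * t + algebraMap K M (D ^ 3 * b) ≠ 0 := by
    intro t h0
    apply H88OD.Cub_noroot (cubD S hD) (algebraMap M N t)
    have h1 := congrArg (algebraMap M N) h0
    rw [map_add, map_add, map_mul, map_pow, map_zero, ← IsScalarTower.algebraMap_apply,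
      ← IsScalarTower.algebraMap_apply] at h1
    exact h1
  obtain ⟨L0, _, _, _, θ0, h0⟩ := H24PD.exists_cub hir
  have hsel : SelTriv M L0 (algebraMap K M (D ^ 2 * a)) (algebraMap K M (D ^ 3 * b)) θ0 := by
    have hc : Cub N L (algebraMap M N (algebraMap K M (D ^ 2 * a)))
        (algebraMap M N (algebraMap K M (D ^ 3 * b))) (algebraMap N L (algebraMap K N D) * θ) := by
      rw [← IsScalarTower.algebraMap_apply, ← IsScalarTower.algebraMap_apply]
      exact cubD S hD
    refine selTriv_down hgalM h0 hc ?_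
    rw [← IsScalarTower.algebraMap_apply, ← IsScalarTower.algebraMap_apply]
    exact sel_of_V S h
  obtain ⟨h1, h2⟩ := H24PD.descent h0 hsel
  exact ⟨h1, H30ZO.tors_of_noroot hir, h2⟩

/-- Conversely the Selmer group over `N` is trivial if the points and the Tate-Shafarevich group are. -/
theorem V_of_tv (S : H88GX.Ext K N L a b θ) {D : K} (hD : D ≠ 0)
    (h : Tv N (algebraMap K N (D ^ 2 * a)) (algebraMap K N (D ^ 3 * b))) (c : SC L)
    (hc : S.V D c) : c = 0 := by
  have hsel := H30ZO.selTriv_of_sha (cubD S hD) h.1 h.2.1 h.2.2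
  obtain ⟨x, hx, hxc⟩ := H38T1.sc_surj c
  obtain ⟨c0, c1, c2, he⟩ := (cubD S hD).sp x
  obtain ⟨d, hd⟩ : ∃ d : Fin 3 → N, ev (algebraMap N L (algebraMap K N D) * θ) d = x :=
    ⟨![c0, c1, c2], he.symm⟩
  have hx' : ev (algebraMap N L (algebraMap K N D) * θ) d ≠ 0 := by
    rw [hd]
    exact hx
  rw [← hxc, ← hd] at hc ⊢
  refine (H38T1.sc_eq_zero hx').2 (hsel d hx' ((H30ZO.mem_HH hx').1 hc.hh) (fun v => ?_)
    fun s => ?_)
  · exact (H30ZO.Wc_iff _ (cubD S hD) hx').1 (hc.fin v)
  · exact (H30ZO.Wc_iff _ (cubD S hD) hx').1 (hc.inf s)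

/-- A finite set of bad primes. -/
theorem exists_ok (S : H88GX.Ext K N L a b θ) {D : K} (hD : D ≠ 0)
    (Sg : Finset (HeightOneSpectrum (𝓞 K))) :
    ∃ Sg' : Finset (HeightOneSpectrum (𝓞 K)), Sg ⊆ Sg' ∧ S.Ok D Sg' := by
  have h1 : ∀ x : K, x ≠ 0 → {v : HeightOneSpectrum (𝓞 K) | v.valuation K x ≠ 1}.Finite := by
    intro x hx
    obtain ⟨α, β, hβ, hxy⟩ := IsFractionRing.div_surjective (A := 𝓞 K) x
    have hβ0 : β ≠ 0 := nonZeroDivisors.ne_zero hβ
    have hα0 : α ≠ 0 := by
      rintro rfl
      apply hx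
      rw [← hxy, map_zero, zero_div]
    refine ((H30MQ.fin_mem hα0).union (H30MQ.fin_mem hβ0)).subset fun v hv => ?_
    by_contra h
    rw [Set.mem_union, not_or] at h
    apply hv
    rw [← hxy, map_div₀, v.valuation_eq_one_iff_notMem.mpr h.1, v.valuation_eq_one_iff_notMem.mpr h.2,
      div_one]
  refine ⟨Sg ∪ ((h1 2 two_ne_zero).toFinset ∪ ((h1 _ S.dne).toFinset ∪ (h1 D hD).toFinset)),
    Finset.subset_union_left, ⟨hD, fun v hv => ?_, fun v hv => ?_, fun v hv => ?_⟩⟩
  all_goals
    simp only [Finset.mem_union, Set.Finite.mem_toFinset, Set.mem_setOf_eq, not_or, not_not] at hv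
  · exact hv.2.1
  · exact hv.2.2.1
  · exact hv.2.2.2

end

end H88GN
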