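import Pool.Agent.H88.OD.Sb

/-!
Project MP_78d38b_GN: the two-Selmer group over `N` as a module over the automorphisms of `N / K`, cocycles and classes.
-/

set_option autoImplicit false
set_option linter.unusedSectionVars false
open scoped Classical

open WeierstrassCurve NumberField IsDedekindDomain Pool.Agent.H10 H76PP H24PD H88OD
open H73IS (Sl)
open H38T1 (SC sc)

namespace H88GN

/-- The image of the point `P` under the automorphism `s` of the algebraic closure. -/
def Moved {N : Type} [Field N] (W : WeierstrassCurve N)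
    (s : AlgebraicClosure N ≃+* AlgebraicClosure N)
    (P Q : (W.baseChange (AlgebraicClosure N)).toAffine.Point) : Prop :=
  (P = 0 ∧ Q = 0) ∨ ∃ (x y : AlgebraicClosure N)
    (h : (W.baseChange (AlgebraicClosure N)).toAffine.Nonsingular x y)
    (h' : (W.baseChange (AlgebraicClosure N)).toAffine.Nonsingular (s x) (s y)),
    P = .some x y h ∧ Q = .some (s x) (s y) h'

/-- `f'` is the conjugate of `f` by the automorphism `s` of the algebraic closure: `f'(τ) = s (f (s⁻¹ τ s))`. -/
def IsConj {N : Type} [Field N] (W : WeierstrassCurve N)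
    (s : AlgebraicClosure N ≃+* AlgebraicClosure N) (f f' : Coch N W) : Prop :=
  ∀ τ τ' : AlgebraicClosure N ≃ₐ[N] AlgebraicClosure N, (∀ x, s (τ' x) = τ (s x)) →
    Moved W s (f τ') (f' τ)

/-- The automorphism `s` of the algebraic closure of `N` fixes `K`. -/
def FixK (K : Type) {N : Type} [Field K] [Field N] [Algebra K N]
    (s : AlgebraicClosure N ≃+* AlgebraicClosure N) : Prop :=
  ∀ x : K, s (algebraMap N (AlgebraicClosure N) (algebraMap K N x)) =
    algebraMap N (AlgebraicClosure N) (algebraMap K N x)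

section

variable {N : Type} [Field N] {W : WeierstrassCurve N}
  {s : AlgebraicClosure N ≃+* AlgebraicClosure N}

theorem moved_iff (hs : (W.baseChange (AlgebraicClosure N)).map
      (s : AlgebraicClosure N →+* AlgebraicClosure N) = W.baseChange (AlgebraicClosure N))
    {P Q : (W.baseChange (AlgebraicClosure N)).toAffine.Point} :
    Moved W s P Q ↔ Q = pm (s : AlgebraicClosure N →+* AlgebraicClosure N) hs P := by
  constructor
  · rintro (⟨rfl, rfl⟩ | ⟨x, y, h, h', rfl, rfl⟩)
    · rw [map_zero]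
    · rfl
  · rintro rfl
    rcases P with _ | ⟨x, y, h⟩
    · left
      exact ⟨rfl, rfl⟩
    · right
      exact ⟨x, y, h, _, rfl, rfl⟩

end

section Krel

variable {N L : Type} [Field N] [NumberField N] [Field L] [NumberField L] [Algebra N L] {a b : N}
  {θ : L}

theorem krel_add (hL : Cub N L a b θ) {f g : Coch N (⟨0, 0, 0, a, b⟩ : WeierstrassCurve N)}
    (hf : ∀ σ, f σ + f σ = 0) (hg : ∀ σ, g σ + g σ = 0) {x y : L}
    (h1 : KRel a b θ f x) (h2 : KRel a b θ g y) : KRel a b θ (f + g) (x * y) := by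
  obtain ⟨hfd, hfr⟩ := fin3 hL
  have hfd' : FiniteDimensional N L := hfd
  obtain ⟨φ₁, φ₂, φ₃, h12, h13, h23, hall⟩ := emb3 (Ω := AlgebraicClosure N) hL
  have hE : IsCub ((⟨0, 0, 0, a, b⟩ : WeierstrassCurve N).baseChange (AlgebraicClosure N))
      (φ₁ θ) (φ₂ θ) (φ₃ θ) :=
    isCub_of (a := algebraMap N (AlgebraicClosure N) a) (b := algebraMap N (AlgebraicClosure N) b)
      (map_zero (algebraMap N (AlgebraicClosure N))) (map_zero (algebraMap N (AlgebraicClosure N)))
      (map_zero (algebraMap N (AlgebraicClosure N))) rfl rfl two_ne_zero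
      (emb_root hL φ₁) (emb_root hL φ₂) (emb_root hL φ₃) (fun h => h12 (emb_ext hL h))
      (fun h => h13 (emb_ext hL h)) (fun h => h23 (emb_ext hL h))
  have hth : ∀ φ : L →ₐ[N] AlgebraicClosure N, φ θ = φ₁ θ ∨ φ θ = φ₂ θ ∨ φ θ = φ₃ θ := by
    intro φ
    rcases hall φ with h | h | h
    · exact Or.inl (by rw [h])
    · exact Or.inr (Or.inl (by rw [h]))
    · exact Or.inr (Or.inr (by rw [h]))
  obtain ⟨rf, hrf, hef, hdf⟩ := h1
  obtain ⟨rg, hrg, heg, hdg⟩ := h2
  refine ⟨fun φ => rf φ * rg φ, fun φ => mul_ne_zero (hrf φ) (hrg φ), fun σ φ => ?_, fun φ => ?_⟩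
  · rw [Pi.add_apply, wp_add hE (hth _) (hf σ) (hg σ), map_mul, hef, heg, Units.val_mul,
      Int.cast_mul]
    ring
  · rw [map_mul, ← hdf, ← hdg]
    ring

theorem krel_zero : KRel a b θ (0 : Coch N (⟨0, 0, 0, a, b⟩ : WeierstrassCurve N)) 1 := by
  refine ⟨fun _ => 1, fun _ => one_ne_zero, fun σ φ => ?_, fun φ => ?_⟩
  · rw [map_one, Pi.zero_apply, mul_one]
    have h : wp (mv σ φ θ) (0 : ((⟨0, 0, 0, a, b⟩ : WeierstrassCurve N).baseChange
        (AlgebraicClosure N)).toAffine.Point) = 1 := rfl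
    rw [h]
    norm_num
  · rw [map_one, one_pow]

theorem krel_conj {s : AlgebraicClosure N ≃+* AlgebraicClosure N}
    (hs : ((⟨0, 0, 0, a, b⟩ : WeierstrassCurve N).baseChange (AlgebraicClosure N)).map
      (s : AlgebraicClosure N →+* AlgebraicClosure N) =
        (⟨0, 0, 0, a, b⟩ : WeierstrassCurve N).baseChange (AlgebraicClosure N))
    {g : N ≃+* N} (hg : ∀ x : N, s (algebraMap N (AlgebraicClosure N) x) =
      algebraMap N (AlgebraicClosure N) (g x))
    {ρ : L ≃+* L} (hρ : ∀ x : N, ρ (algebraMap N L x) = algebraMap N L (g x)) (hθ : ρ θ = θ)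
    {f f' : Coch N (⟨0, 0, 0, a, b⟩ : WeierstrassCurve N)} (hc : IsConj _ s f f') {x : L}
    (h : KRel a b θ f x) : KRel a b θ f' (ρ x) := by
  obtain ⟨r, hr0, hre, hrd⟩ := h
  have hgs : ∀ x : N, s.symm (algebraMap N (AlgebraicClosure N) (g x)) =
      algebraMap N (AlgebraicClosure N) x := fun x => by
    rw [← hg, RingEquiv.symm_apply_apply]
  -- the conjugate embedding
  obtain ⟨ψ, hψ⟩ : ∃ ψ : (L →ₐ[N] AlgebraicClosure N) → (L →ₐ[N] AlgebraicClosure N),
      ∀ φ y, ψ φ y = s.symm (φ (ρ y)) :=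
    ⟨fun φ => { ((s.symm : AlgebraicClosure N →+* AlgebraicClosure N).comp
        ((φ : L →+* AlgebraicClosure N).comp (ρ : L →+* L))) with
        commutes' := fun y => by
          change s.symm (φ (ρ (algebraMap N L y))) = _
          rw [hρ, φ.commutes, hgs] }, fun _ _ => rfl⟩
  have hconj : ∀ τ : AlgebraicClosure N ≃ₐ[N] AlgebraicClosure N,
      ∃ τ' : AlgebraicClosure N ≃ₐ[N] AlgebraicClosure N, ∀ x, s (τ' x) = τ (s x) := by
    intro τ
    refine ⟨AlgEquiv.ofRingEquiv (f := (s.trans τ.toRingEquiv).trans s.symm) fun y => ?_,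
      fun x => ?_⟩
    · change s.symm (τ (s (algebraMap N (AlgebraicClosure N) y))) = _
      rw [hg, τ.commutes, hgs]
    · change s (s.symm (τ (s x))) = _
      rw [RingEquiv.apply_symm_apply]
  refine ⟨fun φ => s (r (ψ φ)), fun φ h0 => hr0 (ψ φ) ((map_eq_zero s).1 h0), fun τ φ => ?_,
    fun φ => ?_⟩
  · obtain ⟨τ', hτ'⟩ := hconj τ
    have h1 := (moved_iff hs).1 (hc τ τ' hτ')
    have h2 : mv τ' (ψ φ) = ψ (mv τ φ) := by
      apply AlgHom.ext
      intro y
      rw [mv_apply, hψ, hψ, mv_apply]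
      apply s.injective
      rw [hτ', RingEquiv.apply_symm_apply, RingEquiv.apply_symm_apply]
    have h3 : s (mv τ' (ψ φ) θ) = mv τ φ θ := by
      rw [h2, hψ, RingEquiv.apply_symm_apply, hθ]
    have h4 := wp_pm (s : AlgebraicClosure N →+* AlgebraicClosure N) hs (mv τ' (ψ φ) θ) (f τ')
    rw [← h1] at h4
    have h5 : ((s : AlgebraicClosure N →+* AlgebraicClosure N) (mv τ' (ψ φ) θ)) = mv τ φ θ := h3
    rw [h5] at h4
    rw [← hτ', hre, map_mul, map_intCast, h4, h2]
  · rw [← map_pow, hrd, hψ, RingEquiv.apply_symm_apply]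

end Krel

end H88GN
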