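import Pool.Agent.H26.GN.Sc

/-!
Project MP_78d38b_GN: balanced groups, transfer along a homomorphism.
-/

set_option autoImplicit false
open scoped Classical

namespace H88GN

open H26GN (Stb soc GBal)

section

variable {H C : Type} [AddCommGroup C]

/-- The stable subgroups between `Co` and `Se`. -/
def SB (act : H → C → C) (Co Se U : AddSubgroup C) : Prop :=
  Co ≤ U ∧ U ≤ Se ∧ ∀ s, ∀ u ∈ U, act s u ∈ U

/-- The preimage of the socle of `Se / Co`. -/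
def socC (act : H → C → C) (Co Se : AddSubgroup C) : AddSubgroup C :=
  sSup {U | SB act Co Se U ∧ ∀ U' : AddSubgroup C, U' ≤ U → SB act Co Se U' → U' ≤ Co ∨ U' = U}

/-- The socle of `Se / Co` carries an invariant form `β` such that `β(x,y) + β(y,x)` is nondegenerate. -/
def BalC (act : H → C → C) (Co Se : AddSubgroup C) : Prop :=
  ∃ β : C → C → ZMod 2,
    (∀ f ∈ socC act Co Se, ∀ f' ∈ socC act Co Se, ∀ g ∈ socC act Co Se,
      β (f + f') g = β f g + β f' g ∧ β g (f + f') = β g f + β g f') ∧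
    (∀ s, ∀ f ∈ socC act Co Se, ∀ g ∈ socC act Co Se, β (act s f) (act s g) = β f g) ∧
    (∀ f ∈ Co, ∀ g ∈ socC act Co Se, β f g = 0 ∧ β g f = 0) ∧
    ∀ f ∈ socC act Co Se, (∀ g ∈ socC act Co Se, β f g + β g f = 0) → f ∈ Co

variable {G V : Type} [AddCommGroup V] {act : H → C → C} {Co Se : AddSubgroup C}

theorem soc_stable {actV : G → V → V} (hA : ∀ g, ∃ a : V →+ V, ∀ x, actV g x = a x)
    {W : AddSubgroup V} : Stb actV (soc actV W) := by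
  intro g x hx
  obtain ⟨a, ha⟩ := hA g
  have h1 : soc actV W ≤ (soc actV W).comap a := by
    refine sSup_le fun U hU y hy => ?_
    rw [AddSubgroup.mem_comap, ← ha]
    exact (le_sSup hU : U ≤ soc actV W) (hU.2.2.1 g y hy)
  rw [ha]
  exact h1 hx

/-- The preimage of a subgroup. -/
def pre (Φ : Se →+ V) (U : AddSubgroup V) : AddSubgroup C := (U.comap Φ).map Se.subtype

/-- The image of a subgroup. -/
def img (Φ : Se →+ V) (U : AddSubgroup C) : AddSubgroup V := (U.comap Se.subtype).map Φ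

theorem mem_pre {Φ : Se →+ V} {U : AddSubgroup V} {f : C} :
    f ∈ pre Φ U ↔ ∃ h : f ∈ Se, Φ ⟨f, h⟩ ∈ U := by
  constructor
  · rintro ⟨x, hx, rfl⟩
    exact ⟨x.2, hx⟩
  · rintro ⟨h, hf⟩
    exact ⟨⟨f, h⟩, hf, rfl⟩

theorem mem_img {Φ : Se →+ V} {U : AddSubgroup C} {x : V} :
    x ∈ img Φ U ↔ ∃ (f : C) (h : f ∈ Se), f ∈ U ∧ Φ ⟨f, h⟩ = x := by
  constructor
  · rintro ⟨y, hy, rfl⟩
    exact ⟨y.1, y.2, hy, rfl⟩
  · rintro ⟨f, h, hf, rfl⟩
    exact ⟨⟨f, h⟩, hf, rfl⟩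

section

variable {Φ : Se →+ V} (hCo : Co ≤ Se) (hker : ∀ f : Se, Φ f = 0 ↔ (f : C) ∈ Co)
  {W : AddSubgroup V} (hW : ∀ x, x ∈ W ↔ ∃ f, Φ f = x) {π : H → G}
  (hπ : Function.Surjective π) (hact : ∀ s, ∀ f ∈ Se, act s f ∈ Se) {actV : G → V → V}
  (hΦ : ∀ s (f : C) (hf : f ∈ Se), Φ ⟨act s f, hact s f hf⟩ = actV (π s) (Φ ⟨f, hf⟩))

include hker

theorem pre_img {U : AddSubgroup C} (h1 : Co ≤ U) (h2 : U ≤ Se) : pre Φ (img Φ U) = U := by
  ext f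
  rw [mem_pre]
  constructor
  · rintro ⟨hf, h3⟩
    obtain ⟨g, hg, hgU, h4⟩ := mem_img.1 h3
    have h5 : f - g ∈ Co := by
      refine (hker ⟨f - g, Se.sub_mem hf hg⟩).1 ?_
      have h6 : (⟨f - g, Se.sub_mem hf hg⟩ : Se) = ⟨f, hf⟩ - ⟨g, hg⟩ := rfl
      rw [h6, map_sub, h4, sub_self]
    have h7 := U.add_mem (h1 h5) hgU
    rwa [sub_add_cancel] at h7
  · intro hf
    exact ⟨h2 hf, mem_img.2 ⟨f, h2 hf, hf, rfl⟩⟩

include hW

omit hker in
theorem img_pre {U : AddSubgroup V} (h : U ≤ W) : img Φ (pre Φ U) = U := by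
  ext x
  rw [mem_img]
  constructor
  · rintro ⟨f, hf, h1, rfl⟩
    exact (mem_pre.1 h1).2
  · intro hx
    obtain ⟨f, hf⟩ := (hW x).1 (h hx)
    exact ⟨f.1, f.2, mem_pre.2 ⟨f.2, by rw [show (⟨f.1, f.2⟩ : Se) = f from rfl, hf]; exact hx⟩, hf⟩

include hCo hπ hΦ

omit hW hπ in
theorem sb_pre {U : AddSubgroup V} (h : Stb actV U) : SB act Co Se (pre Φ U) := by
  refine ⟨fun f hf => mem_pre.2 ⟨hCo hf, ?_⟩, fun f hf => (mem_pre.1 hf).1, fun s f hf => ?_⟩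
  · rw [(hker ⟨f, hCo hf⟩).2 hf]
    exact U.zero_mem
  · obtain ⟨h1, h2⟩ := mem_pre.1 hf
    refine mem_pre.2 ⟨hact s f h1, ?_⟩
    rw [hΦ s f h1]
    exact h _ _ h2

omit hCo hker in
theorem stb_img {U : AddSubgroup C} (h : SB act Co Se U) : img Φ U ≤ W ∧ Stb actV (img Φ U) := by
  constructor
  · intro x hx
    obtain ⟨f, hf, -, h2⟩ := mem_img.1 hx
    exact (hW x).2 ⟨⟨f, hf⟩, h2⟩
  · intro g x hx
    obtain ⟨f, hf, h1, h2⟩ := mem_img.1 hx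
    obtain ⟨s, rfl⟩ := hπ g
    exact mem_img.2 ⟨act s f, hact s f hf, h.2.2 s f h1, by rw [hΦ s f hf, h2]⟩

/-- The socles correspond. -/
theorem socC_eq (hCoS : ∀ s, ∀ f ∈ Co, act s f ∈ Co) : socC act Co Se = pre Φ (soc actV W) := by
  have hCoM : Co ≤ socC act Co Se :=
    le_sSup ⟨⟨le_rfl, hCo, hCoS⟩, fun U' h1 _ => Or.inl h1⟩
  have hSe : socC act Co Se ≤ Se := sSup_le fun U hU => hU.1.2.1
  have hsW : soc actV W ≤ W := sSup_le fun U hU => hU.1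
  apply le_antisymm
  · refine sSup_le ?_
    rintro U ⟨hU, hmin⟩
    rw [← pre_img hker hU.1 hU.2.1]
    intro f hf
    obtain ⟨h1, h2⟩ := mem_pre.1 hf
    refine mem_pre.2 ⟨h1, ?_⟩
    obtain ⟨g1, g2⟩ := stb_img hW hπ hact hΦ hU
    by_cases h0 : img Φ U = ⊥
    · rw [h0] at h2
      rw [AddSubgroup.mem_bot.1 h2]
      exact AddSubgroup.zero_mem _
    · refine (le_sSup ?_ : img Φ U ≤ soc actV W) h2
      refine ⟨g1, h0, g2, fun U' h3 h4 => ?_⟩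
      have h5 : U' ≤ W := h3.trans g1
      have h6 : pre Φ U' ≤ U := by
        rw [← pre_img hker hU.1 hU.2.1]
        intro x hx
        obtain ⟨k1, k2⟩ := mem_pre.1 hx
        exact mem_pre.2 ⟨k1, h3 k2⟩
      rcases hmin _ h6 (sb_pre hCo hker hact hΦ h4) with h7 | h7
      · left
        rw [eq_bot_iff]
        intro x hx
        obtain ⟨f, hf⟩ := (hW x).1 (h5 hx)
        have h8 : (f : C) ∈ Co := h7 (mem_pre.2 ⟨f.2, by
          rw [show (⟨f.1, f.2⟩ : Se) = f from rfl, hf]; exact hx⟩)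
        rw [AddSubgroup.mem_bot, ← hf]
        exact (hker f).2 h8
      · right
        rw [← img_pre hW h5, h7]
  · have h1 : soc actV W ≤ img Φ (socC act Co Se) := by
      refine sSup_le ?_
      rintro U ⟨hU, h0, hst, hmin⟩
      have h2 : pre Φ U ≤ socC act Co Se := by
        refine le_sSup ⟨sb_pre hCo hker hact hΦ hst, fun U' h3 h4 => ?_⟩
        obtain ⟨g1, g2⟩ := stb_img hW hπ hact hΦ h4
        have h5 : img Φ U' ≤ U := by
          rw [← img_pre hW hU]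
          intro x hx
          obtain ⟨f, hf, k1, k2⟩ := mem_img.1 hx
          exact mem_img.2 ⟨f, hf, h3 k1, k2⟩
        rcases hmin _ h5 g2 with h6 | h6
        · left
          intro f hf
          have h7 : Φ ⟨f, h4.2.1 hf⟩ ∈ img Φ U' := mem_img.2 ⟨f, h4.2.1 hf, hf, rfl⟩
          rw [h6, AddSubgroup.mem_bot] at h7
          exact (hker _).1 h7
        · right
          rw [← pre_img hker h4.1 h4.2.1, h6]
      rw [← img_pre hW hU]
      intro x hx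
      obtain ⟨f, hf, k1, k2⟩ := mem_img.1 hx
      exact mem_img.2 ⟨f, hf, h2 k1, k2⟩
    intro f hf
    obtain ⟨k1, k2⟩ := mem_pre.1 hf
    rw [← pre_img hker hCoM hSe]
    exact mem_pre.2 ⟨k1, h1 k2⟩

theorem gbal_of (hCoS : ∀ s, ∀ f ∈ Co, act s f ∈ Co) (hA : ∀ g, ∃ a : V →+ V, ∀ x, actV g x = a x)
    (h : BalC act Co Se) : GBal actV W := by
  have hsoc := socC_eq hCo hker hW hπ hact hΦ hCoS
  have hCoM : Co ≤ socC act Co Se :=
    le_sSup ⟨⟨le_rfl, hCo, hCoS⟩, fun U' h1 _ => Or.inl h1⟩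
  have hsW : soc actV W ≤ W := sSup_le fun U hU => hU.1
  obtain ⟨β, b1, b2, b3, b4⟩ := h
  -- a section
  have hsec : ∀ x : V, ∃ f : C, x ∈ W → ∃ hf : f ∈ Se, Φ ⟨f, hf⟩ = x := by
    intro x
    by_cases hx : x ∈ W
    · obtain ⟨f, hf⟩ := (hW x).1 hx
      exact ⟨f.1, fun _ => ⟨f.2, hf⟩⟩
    · exact ⟨0, fun h => absurd h hx⟩
  choose σ hσ using hsec
  have hσm : ∀ x ∈ soc actV W, σ x ∈ socC act Co Se := by
    intro x hx
    obtain ⟨h1, h2⟩ := hσ x (hsW hx)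
    rw [hsoc]
    exact mem_pre.2 ⟨h1, by rw [h2]; exact hx⟩
  -- independence of the choice
  have hind : ∀ f ∈ socC act Co Se, ∀ f' ∈ socC act Co Se, f - f' ∈ Co →
      ∀ g ∈ socC act Co Se, β f g = β f' g ∧ β g f = β g f' := by
    intro f hf f' hf' hff g hg
    obtain ⟨e1, e2⟩ := b1 (f - f') (hCoM hff) f' hf' g hg
    rw [sub_add_cancel] at e1 e2
    obtain ⟨e3, e4⟩ := b3 _ hff g hg
    rw [e3, zero_add] at e1
    rw [e4, zero_add] at e2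
    exact ⟨e1, e2⟩
  have hdiff : ∀ (f g : C) (hf : f ∈ Se) (hg : g ∈ Se), Φ ⟨f, hf⟩ = Φ ⟨g, hg⟩ → f - g ∈ Co := by
    intro f g hf hg he
    refine (hker ⟨f - g, Se.sub_mem hf hg⟩).1 ?_
    have h6 : (⟨f - g, Se.sub_mem hf hg⟩ : Se) = ⟨f, hf⟩ - ⟨g, hg⟩ := rfl
    rw [h6, map_sub, he, sub_self]
  have hadd : ∀ x ∈ soc actV W, ∀ x' ∈ soc actV W, σ (x + x') - (σ x + σ x') ∈ Co := by
    intro x hx x' hx'
    obtain ⟨h1, h2⟩ := hσ x (hsW hx)
    obtain ⟨h3, h4⟩ := hσ x' (hsW hx')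
    obtain ⟨h5, h6⟩ := hσ (x + x') (W.add_mem (hsW hx) (hsW hx'))
    refine hdiff _ _ h5 (Se.add_mem h1 h3) ?_
    have h7 : (⟨σ x + σ x', Se.add_mem h1 h3⟩ : Se) = ⟨σ x, h1⟩ + ⟨σ x', h3⟩ := rfl
    rw [h6, h7, map_add, h2, h4]
  have hstb : Stb actV (soc actV W) := soc_stable hA
  refine ⟨fun x y => β (σ x) (σ y), fun x hx x' hx' y hy => ?_, fun x hx y hy y' hy' => ?_,
    fun g x hx y hy => ?_, fun x hx h => ?_⟩
  · beta_reduce
    rw [(hind _ (hσm _ (AddSubgroup.add_mem _ hx hx')) _ (AddSubgroup.add_mem _ (hσm x hx)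
      (hσm x' hx')) (hadd x hx x' hx') _ (hσm y hy)).1]
    exact (b1 _ (hσm x hx) _ (hσm x' hx') _ (hσm y hy)).1
  · beta_reduce
    rw [(hind _ (hσm _ (AddSubgroup.add_mem _ hy hy')) _ (AddSubgroup.add_mem _ (hσm y hy)
      (hσm y' hy')) (hadd y hy y' hy') _ (hσm x hx)).2]
    exact (b1 _ (hσm y hy) _ (hσm y' hy') _ (hσm x hx)).2
  · obtain ⟨s, rfl⟩ := hπ g
    have key : ∀ x ∈ soc actV W, act s (σ x) ∈ socC act Co Se ∧
        σ (actV (π s) x) - act s (σ x) ∈ Co := by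
      intro x hx
      obtain ⟨h1, h2⟩ := hσ x (hsW hx)
      obtain ⟨h3, h4⟩ := hσ (actV (π s) x) (hsW (hstb _ x hx))
      have h5 := hΦ s (σ x) h1
      rw [h2] at h5
      refine ⟨?_, hdiff _ _ h3 (hact s _ h1) (h4.trans h5.symm)⟩
      rw [hsoc]
      exact mem_pre.2 ⟨hact s _ h1, by rw [h5]; exact hstb _ x hx⟩
    obtain ⟨h1, h2⟩ := key x hx
    obtain ⟨h3, h4⟩ := key y hy
    change β (σ (actV (π s) x)) (σ (actV (π s) y)) = β (σ x) (σ y)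
    rw [(hind _ (hσm _ (hstb _ x hx)) _ h1 h2 _ (hσm _ (hstb _ y hy))).1,
      (hind _ (hσm _ (hstb _ y hy)) _ h3 h4 _ h1).2]
    exact b2 s _ (hσm x hx) _ (hσm y hy)
  · obtain ⟨h1, h2⟩ := hσ x (hsW hx)
    have h3 : σ x ∈ Co := by
      refine b4 _ (hσm x hx) fun g hg => ?_
      have hg' := hg
      rw [hsoc] at hg'
      obtain ⟨j1, j2⟩ := mem_pre.1 hg'
      have h4 := h _ j2
      obtain ⟨h5, h6⟩ := hσ _ (hsW j2)
      obtain ⟨e1, e2⟩ := hind _ (hσm _ j2) _ hg (hdiff _ _ h5 j1 h6) _ (hσm x hx)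
      change β (σ x) (σ (Φ ⟨g, j1⟩)) + β (σ (Φ ⟨g, j1⟩)) (σ x) = 0 at h4
      rwa [e1, e2] at h4
    rw [← h2]
    exact (hker _).2 h3

theorem balC_of (hCoS : ∀ s, ∀ f ∈ Co, act s f ∈ Co) (h : GBal actV W) : BalC act Co Se := by
  have hsoc := socC_eq hCo hker hW hπ hact hΦ hCoS
  have hsW : soc actV W ≤ W := sSup_le fun U hU => hU.1
  obtain ⟨β, b1, b2, b3, b4⟩ := h
  obtain ⟨φ, hφ⟩ : ∃ φ : C → V, ∀ (f : C) (hf : f ∈ Se), φ f = Φ ⟨f, hf⟩ :=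
    ⟨fun f => if hf : f ∈ Se then Φ ⟨f, hf⟩ else 0, fun f hf => dif_pos hf⟩
  have hm : ∀ f ∈ socC act Co Se, ∃ hf : f ∈ Se, φ f ∈ soc actV W := by
    intro f hf
    rw [hsoc] at hf
    obtain ⟨h1, h2⟩ := mem_pre.1 hf
    exact ⟨h1, by rw [hφ f h1]; exact h2⟩
  have hadd : ∀ f ∈ socC act Co Se, ∀ g ∈ socC act Co Se, φ (f + g) = φ f + φ g := by
    intro f hf g hg
    obtain ⟨h1, -⟩ := hm f hf
    obtain ⟨h2, -⟩ := hm g hg
    rw [hφ _ (Se.add_mem h1 h2), hφ _ h1, hφ _ h2, ← map_add]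
    rfl
  refine ⟨fun f g => β (φ f) (φ g), fun f hf f' hf' g hg => ?_, fun s f hf g hg => ?_,
    fun f hf g hg => ?_, fun f hf h => ?_⟩
  · beta_reduce
    rw [hadd f hf f' hf']
    exact ⟨b1 _ (hm f hf).2 _ (hm f' hf').2 _ (hm g hg).2,
      b2 _ (hm g hg).2 _ (hm f hf).2 _ (hm f' hf').2⟩
  · obtain ⟨h1, h2⟩ := hm f hf
    obtain ⟨h3, h4⟩ := hm g hg
    have e1 : φ (act s f) = actV (π s) (φ f) := by rw [hφ _ (hact s f h1), hΦ s f h1, hφ _ h1]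
    have e2 : φ (act s g) = actV (π s) (φ g) := by rw [hφ _ (hact s g h3), hΦ s g h3, hφ _ h3]
    beta_reduce
    rw [e1, e2]
    exact b3 _ _ h2 _ h4
  · have h1 : φ f = 0 := by
      rw [hφ f (hCo hf)]
      exact (hker _).2 hf
    have h2 := (hm g hg).2
    have h0 : (0 : V) ∈ soc actV W := AddSubgroup.zero_mem _
    have e1 := b1 0 h0 0 h0 _ h2
    have e2 := b2 _ h2 0 h0 0 h0
    rw [add_zero, left_eq_add] at e1 e2
    beta_reduce
    rw [h1]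
    exact ⟨e1, e2⟩
  · obtain ⟨h1, h2⟩ := hm f hf
    refine (hker ⟨f, h1⟩).1 ?_
    rw [← hφ f h1]
    refine b4 _ h2 fun y hy => ?_
    obtain ⟨g, hg⟩ := (hW y).1 (hsW hy)
    have h3 : g.1 ∈ socC act Co Se := by
      rw [hsoc]
      exact mem_pre.2 ⟨g.2, by rw [show (⟨g.1, g.2⟩ : Se) = g from rfl, hg]; exact hy⟩
    have h4 := h g.1 h3
    have h5 : φ g.1 = y := by rw [hφ g.1 g.2, ← hg]
    beta_reduce at h4
    rwa [h5] at h4

end

end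

end H88GN
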