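import Pool.Agent.H88.GN.Ka
import Pool.Agent.H88.GN.Kb
import Pool.Agent.H88.GX.Gb
import Pool.Agent.H88.OD.Fa
import Pool.Agent.H73.IS.I1

/-!
Project MP_78d38b_GN: the two-Selmer group over `N` by cocycles and by classes, as modules over the automorphisms of `N / K`.
-/

set_option autoImplicit false
set_option linter.unusedSectionVars false
open scoped Classical

open WeierstrassCurve NumberField IsDedekindDomain Pool.Agent.H10 H76PP H24PD
open H73IS (Sl cj cjg cjg_spec)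
open H88OD (KRel krel_of_sl sl_of_krel krel_iff)
open H38T1 (SC sc)

namespace H88GN

/-- The short Weierstrass curve. -/
abbrev sw {k : Type} [Field k] (a b : k) : WeierstrassCurve k := ⟨0, 0, 0, a, b⟩

/-- The two-Selmer cocycles. -/
def Se (N : Type) [Field N] [NumberField N] (W : WeierstrassCurve N) : AddSubgroup (Coch N W) where
  carrier := {f | Sl N W f}
  zero_mem' := ⟨(ShaZ N W).zero_mem.1, (ShaZ N W).zero_mem.2, fun _ => add_zero _⟩
  add_mem' := by
    rintro f g ⟨h1, h2, h3⟩ ⟨h4, h5, h6⟩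
    have h := (ShaZ N W).add_mem (x := f) (y := g) ⟨h1, h2⟩ ⟨h4, h5⟩
    refine ⟨h.1, h.2, fun σ => ?_⟩
    rw [Pi.add_apply, add_add_add_comm, h3, h6, add_zero]
  neg_mem' := by
    rintro f ⟨h1, h2, h3⟩
    have h := (ShaZ N W).neg_mem (x := f) ⟨h1, h2⟩
    refine ⟨h.1, h.2, fun σ => ?_⟩
    rw [Pi.neg_apply, ← neg_add, h3, neg_zero]

theorem mem_Se {N : Type} [Field N] [NumberField N] {W : WeierstrassCurve N} {f : Coch N W} :
    f ∈ Se N W ↔ Sl N W f := Iff.rfl

/-- The coboundaries of the points killed by two. -/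
def Co (N : Type) [Field N] [NumberField N] (W : WeierstrassCurve N) : AddSubgroup (Coch N W) where
  carrier := {f | ∃ T : (W.baseChange (AlgebraicClosure N)).toAffine.Point, T + T = 0 ∧
    ∀ σ, f σ = act (inv_bc N W) σ T - T}
  zero_mem' := ⟨0, add_zero 0, fun σ => by rw [map_zero, sub_zero]; rfl⟩
  add_mem' := by
    rintro f g ⟨T, h1, h2⟩ ⟨T', h3, h4⟩
    refine ⟨T + T', by rw [add_add_add_comm, h1, h3, add_zero], fun σ => ?_⟩
    rw [Pi.add_apply, h2, h4, map_add]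
    abel
  neg_mem' := by
    rintro f ⟨T, h1, h2⟩
    refine ⟨-T, by rw [← neg_add, h1, neg_zero], fun σ => ?_⟩
    rw [Pi.neg_apply, h2, map_neg]
    abel

theorem mem_Co {N : Type} [Field N] [NumberField N] {W : WeierstrassCurve N} {f : Coch N W} :
    f ∈ Co N W ↔ ∃ T : (W.baseChange (AlgebraicClosure N)).toAffine.Point, T + T = 0 ∧
    ∀ σ, f σ = act (inv_bc N W) σ T - T := Iff.rfl

section

variable {N L : Type} [Field N] [NumberField N] [Field L] [NumberField L] [Algebra N L] {a b : N}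
  {θ : L}

theorem act_map {W : WeierstrassCurve N} (σ : AlgebraicClosure N ≃ₐ[N] AlgebraicClosure N)
    (X : (W.baseChange (AlgebraicClosure N)).toAffine.Point) :
    (WeierstrassCurve.Affine.Point.map σ.toAlgHom :
      (W.baseChange (AlgebraicClosure N)).toAffine.Point →+
        (W.baseChange (AlgebraicClosure N)).toAffine.Point) X =
      act (inv_bc N W) σ X := by
  rw [map_eq_pm]
  rfl

theorem co_le {W : WeierstrassCurve N} : Co N W ≤ Se N W := by
  rintro f ⟨T, hT, hf⟩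
  have h := shaB_le (K := N) (V := W) ((isCobound_iff f).2 ⟨T, hf⟩)
  refine ⟨h.1, h.2, fun σ => ?_⟩
  have e : f σ + f σ = act (inv_bc N W) σ (T + T) - (T + T) := by
    rw [hf, map_add]
    abel
  rw [e, hT, map_zero, sub_zero]

private theorem add_self {F : Type} [Field F] (c e : SC F) : c = e ↔ c + e = 0 := by
  have h : e + e = 0 := by
    rw [← two_nsmul]
    exact H38T1.SC.two_smul e
  constructor
  · rintro rfl
    exact h
  · intro h1
    exact add_right_cancel (h1.trans h.symm)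

theorem krel_class (hL : Cub N L a b θ) {f g : Coch N (sw a b)} (hf : Sl N (sw a b) f)
    (hg : Sl N (sw a b) g) {x y : L} (hx : x ≠ 0) (hy : y ≠ 0) (h1 : KRel a b θ f x)
    (h2 : KRel a b θ g y) : sc x = sc y ↔ f - g ∈ Co N (sw a b) := by
  rw [add_self, ← H38T1.sc_mul hx hy, H38T1.sc_eq_zero (mul_ne_zero hx hy),
    krel_iff hL hf hg hx hy h1 h2, mem_Co]
  refine exists_congr fun T => and_congr_right fun _ => forall_congr' fun σ => ?_
  rw [act_map]
  exact Iff.rfl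

/-- The classes of the two-Selmer cocycles. -/
theorem exists_Phi (hL : Cub N L a b θ) : ∃ Φ : Se N (sw a b) →+ SC L,
    (∀ (f : Se N (sw a b)) (x : L), x ≠ 0 → KRel a b θ f.1 x → Φ f = sc x) ∧
    (∀ f : Se N (sw a b), ∃ x : L, x ≠ 0 ∧ KRel a b θ f.1 x) ∧
    (∀ f, Φ f = 0 ↔ (f : Coch N (sw a b)) ∈ Co N (sw a b)) ∧
    ∀ c, (c ∈ H30ZO.HH N L ∧
        (∀ v : HeightOneSpectrum (𝓞 N), H30ZO.Wc (algebraMap N (v.adicCompletion N)) a b θ c) ∧
        ∀ s : N →+* ℝ, H30ZO.Wc s a b θ c) ↔ ∃ f, Φ f = c := by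
  have key : ∀ f : Se N (sw a b), ∃ d : Fin 3 → N, ev θ d ≠ 0 ∧
      IsSquare (Algebra.norm N (ev θ d)) ∧
      (∀ v : HeightOneSpectrum (𝓞 N), LC (algebraMap N (v.adicCompletion N)) a b d) ∧
      (∀ s : N →+* ℝ, LC s a b d) ∧ KRel a b θ f.1 (ev θ d) := fun f => krel_of_sl hL f.2
  choose d hd0 hdn hdv hds hdK using key
  have huniq : ∀ (f : Se N (sw a b)) (x : L), x ≠ 0 → KRel a b θ f.1 x →
      sc (ev θ (d f)) = sc x := by
    intro f x hx h
    rw [krel_class hL f.2 f.2 (hd0 f) hx (hdK f) h, sub_self]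
    exact AddSubgroup.zero_mem _
  refine ⟨AddMonoidHom.mk' (fun f => sc (ev θ (d f))) fun f g => ?_, huniq,
    fun f => ⟨_, hd0 f, hdK f⟩, fun f => ?_, fun c => ?_⟩
  · rw [huniq (f + g) (ev θ (d f) * ev θ (d g)) (mul_ne_zero (hd0 f) (hd0 g))
      (krel_add hL f.2.2.2 g.2.2.2 (hdK f) (hdK g)), H38T1.sc_mul (hd0 f) (hd0 g)]
  · change sc (ev θ (d f)) = 0 ↔ _
    have h0 : (0 : SC L) = sc (1 : L) :=
      ((H38T1.sc_eq_zero one_ne_zero).2 ⟨1, (mul_one 1).symm⟩).symm
    rw [h0, krel_class hL f.2 (Se N (sw a b)).zero_mem (hd0 f) one_ne_zero (hdK f) krel_zero,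
      sub_zero]
  · constructor
    · rintro ⟨hc1, hc2, hc3⟩
      obtain ⟨x, hx, hxc⟩ := H38T1.sc_surj c
      obtain ⟨c0, c1, c2, he⟩ := hL.sp x
      have hev : ev θ ![c0, c1, c2] = x := he.symm
      have hd : ev θ ![c0, c1, c2] ≠ 0 := by
        rw [hev]
        exact hx
      have hcd : sc (ev θ ![c0, c1, c2]) = c := by
        rw [hev]
        exact hxc
      rw [← hcd] at hc1 hc2 hc3
      obtain ⟨f, hf, hK⟩ := sl_of_krel hL hd ((H30ZO.mem_HH hd).1 hc1)
        (fun v => (H30ZO.Wc_iff _ hL hd).1 (hc2 v)) (fun s => (H30ZO.Wc_iff _ hL hd).1 (hc3 s))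
      refine ⟨⟨f, hf⟩, ?_⟩
      change sc (ev θ (d ⟨f, hf⟩)) = c
      rw [huniq ⟨f, hf⟩ _ hd hK, hcd]
    · rintro ⟨f, rfl⟩
      exact ⟨(H30ZO.mem_HH (hd0 f)).2 (hdn f), fun v => ⟨d f, hd0 f, rfl, hdv f v⟩,
        fun s => ⟨d f, hd0 f, rfl, hds f s⟩⟩

end

section

variable {K N L : Type} [Field K] [NumberField K] [Field N] [NumberField N] [Field L]
  [NumberField L] [Algebra K N] [Algebra N L] {a b : K} {θ : L}

/-- The twist of the cubic field. -/
theorem cubD (S : H88GX.Ext K N L a b θ) {D : K} (hD : D ≠ 0) :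
    Cub N L (algebraMap K N (D ^ 2 * a)) (algebraMap K N (D ^ 3 * b))
      (algebraMap N L (algebraMap K N D) * θ) := by
  have h := Tf_twist S.cub (D := algebraMap K N D) ((map_ne_zero _).2 hD)
  rw [map_mul, map_mul, map_pow, map_pow]
  exact h

theorem sw_map {A B : K} : (sw A B).map (algebraMap K N) =
    sw (algebraMap K N A) (algebraMap K N B) := by
  simp only [WeierstrassCurve.map, map_zero]

theorem conj_iff [Normal K N] {V : WeierstrassCurve K} {V' : WeierstrassCurve N}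
    (hV : V.map (algebraMap K N) = V')
    (s : AlgebraicClosure N ≃ₐ[K] AlgebraicClosure N) (f f' : Coch N V') :
    IsConj V' (s : AlgebraicClosure N ≃+* AlgebraicClosure N) f f' ↔ f' = cj (inv_up hV) s f := by
  have hs : (V'.baseChange (AlgebraicClosure N)).map
      ((s : AlgebraicClosure N ≃+* AlgebraicClosure N) : AlgebraicClosure N →+* AlgebraicClosure N) =
        V'.baseChange (AlgebraicClosure N) := inv_up hV s
  constructor
  · intro h
    funext τ
    exact (moved_iff hs).1 (h τ (cjg s τ) fun x => cjg_spec s τ x)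
  · rintro rfl τ τ' h
    have h1 : τ' = cjg s τ := by
      ext x
      apply s.injective
      rw [cjg_spec]
      exact h x
    rw [h1]
    exact (moved_iff hs).2 rfl

/-- **The transfer of balancedness** between the two-Selmer cocycles and the classes. -/
theorem balC_iff [Normal K N] (S : H88GX.Ext K N L a b θ) {D : K} (hD : D ≠ 0)
    {W : AddSubgroup (SC L)} (hW : ∀ c, c ∈ W ↔ S.V D c) :
    BalC (fun (s : AlgebraicClosure N ≃ₐ[K] AlgebraicClosure N) f =>
        cj (inv_up (sw_map (N := N) (A := D ^ 2 * a) (B := D ^ 3 * b))) s f)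
      (Co N (sw (algebraMap K N (D ^ 2 * a)) (algebraMap K N (D ^ 3 * b))))
      (Se N (sw (algebraMap K N (D ^ 2 * a)) (algebraMap K N (D ^ 3 * b)))) ↔
    H26GN.GBal (fun g c => S.ρ g • c) W := by
  obtain ⟨Φ, h1, h2, h3, h4⟩ := exists_Phi (cubD S hD)
  have hSe : ∀ (s : AlgebraicClosure N ≃ₐ[K] AlgebraicClosure N), ∀ f ∈
      Se N (sw (algebraMap K N (D ^ 2 * a)) (algebraMap K N (D ^ 3 * b))),
      cj (inv_up (sw_map (N := N) (A := D ^ 2 * a) (B := D ^ 3 * b))) s f ∈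
      Se N (sw (algebraMap K N (D ^ 2 * a)) (algebraMap K N (D ^ 3 * b))) :=
    fun s f hf => Sl.cj sw_map hf s
  have hWΦ : ∀ c, c ∈ W ↔ ∃ f, Φ f = c := by
    intro c
    rw [hW, ← h4]
    exact ⟨fun h => ⟨h.hh, h.fin, h.inf⟩, fun h => ⟨h.1, h.2.1, h.2.2⟩⟩
  have hπ : Function.Surjective fun s : AlgebraicClosure N ≃ₐ[K] AlgebraicClosure N =>
      s.restrictNormal N := AlgEquiv.restrictNormalHom_surjective (AlgebraicClosure N)
  have hΦ : ∀ (s : AlgebraicClosure N ≃ₐ[K] AlgebraicClosure N)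
      (f : Coch N (sw (algebraMap K N (D ^ 2 * a)) (algebraMap K N (D ^ 3 * b))))
      (hf : f ∈ Se N (sw (algebraMap K N (D ^ 2 * a)) (algebraMap K N (D ^ 3 * b)))),
      Φ ⟨cj (inv_up (sw_map (N := N) (A := D ^ 2 * a) (B := D ^ 3 * b))) s f, hSe s f hf⟩ =
        S.ρ (s.restrictNormal N) • Φ ⟨f, hf⟩ := by
    intro s f hf
    obtain ⟨x, hx, hk⟩ := h2 ⟨f, hf⟩
    have hρ : ∀ y : N, S.ρ (s.restrictNormal N) (algebraMap N L y) =
        algebraMap N L (s.restrictNormal N y) := fun y => S.ρF _ y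
    have hθ : S.ρ (s.restrictNormal N) (algebraMap N L (algebraMap K N D) * θ) =
        algebraMap N L (algebraMap K N D) * θ := by
      rw [map_mul, S.ρF, S.ρθ, AlgEquiv.commutes]
    have hk' := krel_conj (s := (s : AlgebraicClosure N ≃+* AlgebraicClosure N))
      (inv_up sw_map s) (g := (s.restrictNormal N : N ≃+* N))
      (fun y => (AlgEquiv.restrictNormal_commutes s N y).symm)
      (ρ := (S.ρ (s.restrictNormal N) : L ≃+* L)) hρ hθ
      ((conj_iff sw_map s f _).2 rfl) hk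
    rw [h1 _ _ hx hk, H38T1.smul_sc _ hx]
    exact h1 _ _ ((map_ne_zero _).2 hx) hk'
  have hCoS : ∀ (s : AlgebraicClosure N ≃ₐ[K] AlgebraicClosure N), ∀ f ∈
      Co N (sw (algebraMap K N (D ^ 2 * a)) (algebraMap K N (D ^ 3 * b))),
      cj (inv_up (sw_map (N := N) (A := D ^ 2 * a) (B := D ^ 3 * b))) s f ∈
      Co N (sw (algebraMap K N (D ^ 2 * a)) (algebraMap K N (D ^ 3 * b))) := by
    intro s f hf
    obtain ⟨T, hT, hf'⟩ := hf
    refine ⟨act (inv_up sw_map) s T, by rw [← map_add, hT, map_zero], fun τ => ?_⟩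
    have h5 : f = fun τ => act (inv_bc N (sw (algebraMap K N (D ^ 2 * a))
      (algebraMap K N (D ^ 3 * b)))) τ T - T := funext hf'
    rw [h5]
    exact H73IS.cj_cob (inv_up (sw_map (N := N) (A := D ^ 2 * a) (B := D ^ 3 * b))) s T τ
  exact ⟨gbal_of (H := AlgebraicClosure N ≃ₐ[K] AlgebraicClosure N) (Φ := Φ) co_le h3 hWΦ hπ hSe
      hΦ hCoS (fun g => ⟨DistribSMul.toAddMonoidHom (SC L) (S.ρ g), fun c => rfl⟩),
    balC_of (H := AlgebraicClosure N ≃ₐ[K] AlgebraicClosure N) (Φ := Φ) co_le h3 hWΦ hπ hSe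
      hΦ hCoS⟩

theorem gbal_of_balC [Normal K N] (S : H88GX.Ext K N L a b θ) {D : K} (hD : D ≠ 0)
    {W : AddSubgroup (SC L)} (hW : ∀ c, c ∈ W ↔ S.V D c)
    (h : BalC (fun (s : AlgebraicClosure N ≃ₐ[K] AlgebraicClosure N) f =>
        cj (inv_up (sw_map (N := N) (A := D ^ 2 * a) (B := D ^ 3 * b))) s f)
      (Co N (sw (algebraMap K N (D ^ 2 * a)) (algebraMap K N (D ^ 3 * b))))
      (Se N (sw (algebraMap K N (D ^ 2 * a)) (algebraMap K N (D ^ 3 * b))))) :
    H26GN.GBal (fun g c => S.ρ g • c) W := (balC_iff S hD hW).1 h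

end

end H88GN
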