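import Pool.Agent.H88.ZR.Fj
import Pool.Agent.H88.GN.Kc
import Pool.Agent.H88.PL.Pf
import Pool.Agent.H26.GN.G1

/-!
Project MP_78d38b_GN: the theorem for a normal Sylow 2-subgroup with completely split primes, settings for the criterion.
-/

set_option autoImplicit false
set_option linter.unusedSectionVars false
open scoped Classical

open WithZero NumberField IsDedekindDomain H38RT
open H38T1 (SC sc scu rep eo la si OddP)
open H76PP (Cub LC ev scm dn SelTriv Tf_twist)
open H30ZO (Tv Wc RealAt)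
open H26OD (Rich Zs dd3)
open H36CY (Stb DescAt)
open H88OD (Rel RelZ selCard)

namespace H88GN

/-- `H88OD.main_NJ` with primes which split completely. -/
theorem main_NJZ {K F N : Type} [Field K] [NumberField K] [Field F] [NumberField F] [Field N]
    [NumberField N] [Algebra K F] [Algebra F N] [Algebra K N] [IsScalarTower K F N]
    [hgN : IsGalois K N] [hgF : IsGalois K F] [hgFN : IsGalois F N] {ι : Type} [Fintype ι]
    [Nonempty ι] {a b : ι → 𝓞 K} (hodd : Odd (Module.finrank K F)) {r : ℕ}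
    (hr : Module.finrank F N = 2 ^ r)
    (hir : ∀ (j : ι) (t : K), t ^ 3 + (a j : K) * t + (b j : K) ≠ 0)
    (hind : ∀ I : Finset ι, I.Nonempty →
      ¬ IsSquare (algebraMap K N (∏ j ∈ I, dd3 (a j : K) (b j : K))))
    {D0 : K} (hD0 : D0 ≠ 0)
    (hk : ∀ j, ∃ k : ℕ, selCard K (D0 ^ 2 * (a j : K)) (D0 ^ 3 * (b j : K)) = 4 ^ k)
    (hreal : ∀ j, RealAt K N (a j : K) (b j : K))
    (hdesc : ∀ j v, DescAt K N v (D0 ^ 2 * (a j : K)) (D0 ^ 3 * (b j : K)))
    (Sg X : Finset (HeightOneSpectrum (𝓞 K))) :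
    ∃ D : K, RelZ K Sg (Zs K N) D0 D ∧ (∀ j, ∀ (M : Type) [Field M] [NumberField M] [Algebra K M]
      [Algebra M N] [IsScalarTower K M N],
      Tv M (algebraMap K M (D ^ 2 * (a j : K))) (algebraMap K M (D ^ 3 * (b j : K)))) ∧
      ∃ q : HeightOneSpectrum (𝓞 K), q ∉ X ∧ Odd (ord (q.valuation K) D) := by
  have hsq : ∀ j, ¬ IsSquare (dd3 (a j : K) (b j : K)) := by
    intro j h
    apply hind {j} (Finset.singleton_nonempty j)
    rw [Finset.prod_singleton]
    exact h.map (algebraMap K N)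
  have hne : ∀ j, 4 * (a j : K) ^ 3 + 27 * (b j : K) ^ 2 ≠ 0 := by
    intro j h
    apply hsq j
    unfold dd3
    rw [h, neg_zero]
    exact ⟨0, (mul_zero 0).symm⟩
  have hoddK : Odd (Module.finrank K K) := by
    rw [Module.finrank_self]
    exact odd_one
  have p0 : ∀ j, H26OD.Pk K K (a j : K) (b j : K) := fun j =>
    (H26OD.exists_pk hoddK (a j) (b j) (hir j) (hsq j)).some
  obtain ⟨Sg1, hle, hok⟩ := H26OD.ok_all p0 hD0 Sg
  obtain ⟨Sr, hSr⟩ : ∃ Sr : Finset (HeightOneSpectrum (𝓞 K)), ∀ V : HeightOneSpectrum (𝓞 N),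
      H73P2.Ram K V → dn K V ∈ Sr := by
    refine ⟨((H30PN.ram_fin K N).image (dn K)).toFinset, fun V hV => ?_⟩
    rw [Set.Finite.mem_toFinset]
    exact ⟨V, hV, rfl⟩
  obtain ⟨D, hrel, hV, hq⟩ := H26OD.main_J (F := F) (N := N) hodd hir hind hD0 hk (Sg1 ∪ Sr) X
  have hδ0 : D / D0 ≠ 0 := div_ne_zero hrel.rel.n1 hD0
  have hDδ : D0 * (D / D0) = D := mul_div_cancel₀ _ hD0
  refine ⟨D, ⟨⟨hrel.rel.n0, hrel.rel.n1, fun v hv =>
    hrel.rel.sq v (Finset.mem_union_left _ (hle hv)), hrel.rel.pos⟩, hrel.out⟩,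
    fun j M _ _ _ _ _ => ?_, hq⟩
  obtain ⟨p, hp⟩ := hV j
  have htv : Tv F (algebraMap K F ((D0 * (D / D0)) ^ 2 * (a j : K)))
      (algebraMap K F ((D0 * (D / D0)) ^ 3 * (b j : K))) := by
    rw [hDδ]
    exact H88OD.tv_between p.S hrel.rel.n1 hp F
  have h := H38OD.up_N (K := K) (F := F) (N := N) (M := M) hodd hr (fun v => v.valuation_le_one (a j))
    (fun v => v.valuation_le_one (b j)) (hne j) hD0 hδ0
    (Sg := Sg1 ∪ Sr)
    (fun v hv => (hok j).two v fun h => hv (Finset.mem_union_left _ h))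
    (fun v hv => (hok j).dis v fun h => hv (Finset.mem_union_left _ h))
    (fun v hv => (hok j).val v fun h => hv (Finset.mem_union_left _ h))
    (fun V hV h => hV (Finset.mem_union_right _ (hSr V h)))
    (fun v hv => hrel.rel.sq v hv)
    (fun v _ hv W hW g hg => by
      have hz : v ∈ Zs K N := by
        by_contra hz
        apply hv
        rw [map_div₀, hrel.out v hz]
        exact div_self ((Valuation.ne_zero_iff _).2 hD0)
      exact hz W hW g (H88OD.stb_smul hg))
    (hreal j) (fun v _ => hdesc j v) htv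
  rwa [hDδ] at h

end H88GN
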